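import Mathlib
import Pool.Agent.W_MP_5bfb0a_al.Basic

set_option autoImplicit false

open scoped Pointwise

namespace Pool.Agent.Results.MP_5bfb0a_al.ClosedCommensurated

open Pool.Agent.W_MP_5bfb0a_al

universe u

/-- Closed commensurated subgroups of locally compact Hausdorff groups almost commute with
compacts. The hypothesis `hcomm` says that the index of `Λ ∩ g Λ g⁻¹` in `Λ` is finite for every
`g`. -/
theorem result (Γ : Type u) [Group Γ] [TopologicalSpace Γ] [IsTopologicalGroup Γ] [T2Space Γ]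
    [LocallyCompactSpace Γ] (Λ : Subgroup Γ) (hclosed : IsClosed (Λ : Set Γ))
    (hcomm : ∀ g : Γ, ((Λ.map (MulAut.conj g).toMonoidHom).subgroupOf Λ).FiniteIndex)
    (C : Set Γ) (hC : IsCompact C) :
    ∃ C' : Set Γ, IsCompact C' ∧ C * (Λ : Set Γ) ⊆ (Λ : Set Γ) * C' ∧
      (Λ : Set Γ) * C ⊆ C' * (Λ : Set Γ) := by
  obtain ⟨C₁, hC₁, h₁⟩ := one_side Λ hclosed hcomm C hC
  obtain ⟨C₂, hC₂, h₂⟩ := one_side Λ hclosed hcomm C⁻¹ hC.inv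
  refine ⟨C₁ ∪ C₂⁻¹, hC₁.union hC₂.inv, h₁.trans (Set.mul_subset_mul_left Set.subset_union_left), ?_⟩
  rintro _ ⟨l, hl, c, hc, rfl⟩
  have h3 : c⁻¹ * l⁻¹ ∈ (Λ : Set Γ) * C₂ :=
    h₂ (Set.mul_mem_mul (Set.inv_mem_inv.mpr hc) (Λ.inv_mem hl))
  obtain ⟨l', hl', c', hc', h4⟩ := Set.mem_mul.mp h3
  refine Set.mem_mul.mpr ⟨c'⁻¹, Or.inr (Set.inv_mem_inv.mpr hc'), l'⁻¹, Λ.inv_mem hl', ?_⟩
  have h5 : (l' * c')⁻¹ = (c⁻¹ * l⁻¹)⁻¹ := by rw [h4]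
  simpa using h5

end Pool.Agent.Results.MP_5bfb0a_al.ClosedCommensurated
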